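import Pool.Agent.NGM.StmtsC

/-! Row CTR of squad NGM (MP_c602ad_al): finitely many limits of stabilisers with trivial
intersection. -/

set_option autoImplicit false

open scoped Classical Pointwise
open Filter

universe u v

namespace Pool.Agent.NGM.H19

variable {G : Type u} [Group G] {X : Type v} [MulAction G X]

/-- point stabilisers are limits of stabilisers -/
theorem limSt_stabilizer (x : X) : LimSt G X (MulAction.stabilizer G x) :=
  fun _ => ⟨x, fun _ _ => MulAction.mem_stabilizer_iff⟩

/-- a subgroup which agrees with limits of stabilisers on all finite sets is one -/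
theorem limSt_of_finite {L : Subgroup G}
    (h : ∀ P : Finset G, ∃ K : Subgroup G, LimSt G X K ∧ ∀ g ∈ P, (g ∈ L ↔ g ∈ K)) :
    LimSt G X L := by
  intro P
  obtain ⟨K, hK, hP⟩ := h P
  obtain ⟨x, hx⟩ := hK P
  exact ⟨x, fun g hg => (hP g hg).trans (hx g hg)⟩

/-- conjugates -/
theorem limSt_conj {L : Subgroup G} (hL : LimSt G X L) (g : G) :
    LimSt G X (L.map (MulAut.conj g).toMonoidHom) := by
  intro P
  obtain ⟨x, hx⟩ := hL (P.image fun h => g⁻¹ * h * g)
  refine ⟨g • x, fun h hh => ?_⟩
  have h1 : h ∈ L.map (MulAut.conj g).toMonoidHom ↔ g⁻¹ * h * g ∈ L := by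
    constructor
    · rintro ⟨l, hl, rfl⟩
      have : g⁻¹ * (g * l * g⁻¹) * g = l := by group
      simpa [this] using hl
    · intro h2
      exact ⟨g⁻¹ * h * g, h2, by simp [mul_assoc]⟩
  rw [h1, hx _ (Finset.mem_image_of_mem _ hh), mul_smul, mul_smul, inv_smul_eq_iff]

/-- every limit of stabilisers contains a minimal one -/
theorem exists_minimal_le {L : Subgroup G} (hL : LimSt G X L) :
    ∃ M : Subgroup G, M ≤ L ∧ Minimal (LimSt G X) M := by
  have hz : ∀ c ⊆ {S : Set G | ∃ K : Subgroup G, LimSt G X K ∧ (K : Set G) = S},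
      IsChain (· ⊆ ·) c → c.Nonempty →
      ∃ lb ∈ {S : Set G | ∃ K : Subgroup G, LimSt G X K ∧ (K : Set G) = S}, ∀ s ∈ c, lb ⊆ s := by
    intro c hc hchain hne
    refine ⟨((⨅ K ∈ {K : Subgroup G | (K : Set G) ∈ c}, K : Subgroup G) : Set G), ⟨_, ?_, rfl⟩, ?_⟩
    · refine limSt_of_finite fun P => ?_
      -- a member of the chain which agrees with the intersection on P
      have key : ∀ P : Finset G, ∃ K : Subgroup G, (K : Set G) ∈ c ∧
          ∀ g ∈ P, g ∈ K → g ∈ (⨅ K ∈ {K : Subgroup G | (K : Set G) ∈ c}, K : Subgroup G) := by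
        intro P
        induction P using Finset.induction_on with
        | empty =>
          obtain ⟨S, hS⟩ := hne
          obtain ⟨K, _, rfl⟩ := hc hS
          exact ⟨K, hS, by simp⟩
        | insert a P _ ih =>
          obtain ⟨K, hKc, hK⟩ := ih
          by_cases ha : a ∈ (⨅ K ∈ {K : Subgroup G | (K : Set G) ∈ c}, K : Subgroup G)
          · refine ⟨K, hKc, fun g hg hgK => ?_⟩
            rcases Finset.mem_insert.1 hg with rfl | hg
            · exact ha
            · exact hK g hg hgK
          · have h1 : ∃ K' : Subgroup G, (K' : Set G) ∈ c ∧ a ∉ K' := by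
              by_contra hcon
              push Not at hcon
              apply ha
              simp only [Subgroup.mem_iInf]
              exact fun K' hK' => hcon K' hK'
            obtain ⟨K', hK'c, haK'⟩ := h1
            rcases hchain.total hKc hK'c with hle | hle
            · refine ⟨K, hKc, fun g hg hgK => ?_⟩
              rcases Finset.mem_insert.1 hg with rfl | hg
              · exact absurd (hle hgK) haK'
              · exact hK g hg hgK
            · refine ⟨K', hK'c, fun g hg hgK => ?_⟩
              rcases Finset.mem_insert.1 hg with rfl | hg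
              · exact absurd hgK haK'
              · exact hK g hg (hle hgK)
      obtain ⟨K, hKc, hK⟩ := key P
      obtain ⟨K₁, hK₁, hK₁e⟩ := hc hKc
      have : K₁ = K := SetLike.coe_injective hK₁e
      subst this
      refine ⟨K₁, hK₁, fun g hg => ⟨fun h => ?_, fun h => hK g hg h⟩⟩
      simp only [Subgroup.mem_iInf] at h
      exact h K₁ hKc
    · intro S hS g hg
      obtain ⟨K, _, rfl⟩ := hc hS
      have : g ∈ (⨅ K ∈ {K : Subgroup G | (K : Set G) ∈ c}, K : Subgroup G) := hg
      simp only [Subgroup.mem_iInf] at this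
      exact this K hS
  obtain ⟨m, hm, hmin⟩ := zorn_superset_nonempty _ hz (L : Set G) ⟨L, hL, rfl⟩
  obtain ⟨K, hK, rfl⟩ := hmin.prop
  refine ⟨K, hm, hK, fun K' hK' hle => ?_⟩
  exact hmin.le_of_le ⟨K', hK', rfl⟩ hle

/-- there are only finitely many minimal limits of stabilisers -/
theorem finite_minimal (hfg : ∀ H : Subgroup G, H.FG) :
    {M : Subgroup G | Minimal (LimSt G X) M}.Finite := by
  by_contra hinf
  have hinf : {M : Subgroup G | Minimal (LimSt G X) M}.Infinite := hinf
  have hne : (cofinite ⊓ 𝓟 {M : Subgroup G | Minimal (LimSt G X) M}).NeBot :=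
    cofinite_inf_principal_neBot_iff.2 hinf
  set U : Ultrafilter (Subgroup G) :=
    Ultrafilter.of (cofinite ⊓ 𝓟 {M : Subgroup G | Minimal (LimSt G X) M}) with hU
  have hUle : (U : Filter (Subgroup G)) ≤ cofinite ⊓ 𝓟 {M : Subgroup G | Minimal (LimSt G X) M} :=
    Ultrafilter.of_le _
  have hUM : ∀ᶠ K in (U : Filter (Subgroup G)), Minimal (LimSt G X) K :=
    (hUle.trans inf_le_right) (mem_principal_self _)
  let L : Subgroup G :=
    { carrier := {g | ∀ᶠ K in (U : Filter (Subgroup G)), g ∈ K}
      mul_mem' := fun {a b} ha hb => by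
        filter_upwards [ha, hb] with K h1 h2 using K.mul_mem h1 h2
      one_mem' := Eventually.of_forall fun K => K.one_mem
      inv_mem' := fun {a} ha => by
        filter_upwards [ha] with K h1 using K.inv_mem h1 }
  have hLmem : ∀ g : G, g ∈ L ↔ ∀ᶠ K in (U : Filter (Subgroup G)), g ∈ K := fun _ => Iff.rfl
  have hagree : ∀ P : Finset G, ∀ᶠ K in (U : Filter (Subgroup G)), ∀ g ∈ P, (g ∈ L ↔ g ∈ K) := by
    intro P
    rw [Filter.eventually_all_finset]
    intro g _
    by_cases hg : g ∈ L
    · filter_upwards [(hLmem g).1 hg] with K hK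
      exact ⟨fun _ => hK, fun _ => hg⟩
    · have h1 : ∀ᶠ K in (U : Filter (Subgroup G)), g ∉ K := by
        rw [Ultrafilter.eventually_not]
        exact fun h => hg ((hLmem g).2 h)
      filter_upwards [h1] with K hK
      exact ⟨fun h => absurd h hg, fun h => absurd h hK⟩
  have hLZ : LimSt G X L := by
    refine limSt_of_finite fun P => ?_
    obtain ⟨K, h1, h2⟩ := ((hagree P).and hUM).exists
    exact ⟨K, h2.prop, h1⟩
  obtain ⟨T, hT⟩ := hfg L
  have hle : ∀ᶠ K in (U : Filter (Subgroup G)), L ≤ K := by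
    have : ∀ᶠ K in (U : Filter (Subgroup G)), ∀ g ∈ T, g ∈ K := by
      rw [Filter.eventually_all_finset]
      intro g hg
      exact (hLmem g).1 (hT ▸ Subgroup.subset_closure hg)
    filter_upwards [this] with K hK
    rw [← hT, Subgroup.closure_le]
    exact fun g hg => hK g hg
  have heq : ∀ᶠ K in (U : Filter (Subgroup G)), K = L := by
    filter_upwards [hle, hUM] with K h1 h2
    exact le_antisymm (h2.le_of_le hLZ h1) h1
  have hneq : ∀ᶠ K in (U : Filter (Subgroup G)), K ≠ L := by
    have h1 : {K : Subgroup G | K ≠ L} ∈ (cofinite : Filter (Subgroup G)) := by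
      rw [mem_cofinite]
      refine (Set.finite_singleton L).subset fun K hK => ?_
      simpa using hK
    exact (hUle.trans inf_le_left) h1
  obtain ⟨K, h1, h2⟩ := (heq.and hneq).exists
  exact h2 h1

/-- conjugates of minimal limits are minimal -/
theorem minimal_conj {M : Subgroup G} (hM : Minimal (LimSt G X) M) (g : G) :
    Minimal (LimSt G X) (M.map (MulAut.conj g).toMonoidHom) := by
  refine ⟨limSt_conj hM.prop g, fun K hK hle => ?_⟩
  have h1 : K.map (MulAut.conj g⁻¹).toMonoidHom ≤ M := by
    rintro _ ⟨k, hk, rfl⟩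
    obtain ⟨m, hm, hmk⟩ := hle hk
    have : (MulAut.conj g⁻¹).toMonoidHom k = m := by
      rw [← hmk]
      simp [mul_assoc]
    rw [this]
    exact hm
  have h2 := hM.le_of_le (limSt_conj hK g⁻¹) h1
  rintro _ ⟨m, hm, rfl⟩
  obtain ⟨k, hk, hkm⟩ := h2 hm
  have : (MulAut.conj g).toMonoidHom m = k := by
    rw [← hkm]
    simp [mul_assoc]
  rw [this]
  exact hk

theorem ctr : CtrStmt.{u, v} := by
  intro G _ X _ _ hfg
  refine ⟨{M : Subgroup G | Minimal (LimSt G X) M}, finite_minimal hfg, ?_, ?_⟩
  · intro L hL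
    refine ⟨?_, hL.prop⟩
    have hfin : Finite {M : Subgroup G | Minimal (LimSt G X) M} := finite_minimal hfg
    have hfin2 : Finite (G ⧸ Subgroup.normalizer (L : Set G)) := by
      refine Finite.of_injective
        (fun q : G ⧸ Subgroup.normalizer (L : Set G) =>
          (⟨L.map (MulAut.conj q.out).toMonoidHom, minimal_conj hL q.out⟩ :
            {M : Subgroup G | Minimal (LimSt G X) M})) ?_
      intro q r hqr
      have h1 : L.map (MulAut.conj q.out).toMonoidHom = L.map (MulAut.conj r.out).toMonoidHom :=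
        congrArg Subtype.val hqr
      rw [← QuotientGroup.out_eq' q, ← QuotientGroup.out_eq' r, QuotientGroup.eq]
      rw [Subgroup.mem_normalizer_iff'']
      have h2 : ∀ (a h : G), h ∈ L.map (MulAut.conj a).toMonoidHom ↔ a⁻¹ * h * a ∈ L := by
        intro a h
        constructor
        · rintro ⟨l, hl, rfl⟩
          have : a⁻¹ * (a * l * a⁻¹) * a = l := by group
          simpa [this] using hl
        · intro h3
          exact ⟨a⁻¹ * h * a, h3, by simp [mul_assoc]⟩
      intro h
      have h3 := h2 q.out (q.out * h * q.out⁻¹)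
      have h4 := h2 r.out (q.out * h * q.out⁻¹)
      rw [h1] at h3
      have h5 : q.out⁻¹ * (q.out * h * q.out⁻¹) * q.out = h := by group
      rw [h5] at h3
      rw [← h3, h4]
      have h6 : r.out⁻¹ * (q.out * h * q.out⁻¹) * r.out =
          (q.out⁻¹ * r.out)⁻¹ * h * (q.out⁻¹ * r.out) := by group
      rw [h6]
    exact Subgroup.index_ne_zero_of_finite
  · rw [eq_bot_iff]
    intro g hg
    rw [Subgroup.mem_bot]
    refine FaithfulSMul.eq_of_smul_eq_smul (α := X) fun x => ?_
    rw [one_smul]
    obtain ⟨M, hM1, hM2⟩ := exists_minimal_le (limSt_stabilizer (G := G) x)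
    have : g ∈ M := (Subgroup.mem_sInf.1 hg) M hM2
    exact MulAction.mem_stabilizer_iff.1 (hM1 this)

end Pool.Agent.NGM.H19
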