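import Pool.Agent.NGM.Defs
import Pool.Agent.NGM.StmtsC
import Pool.Agent.Helper41_NG.Fol

/-! Block E of squad NGM (MP_c602ad_al): isoperimetry and growth. -/

set_option autoImplicit false

open scoped Classical Pointwise

universe u v

namespace Pool.Agent.NGM.H19

variable {Q : Type u} [Group Q]

/-- exits: for a word of length r at most `r |bd A|` points leave `A` -/
theorem exits (K : Finset Q) (A : Finset Q) (r : ℕ) (g : Q) (hg : g ∈ K ^ r) :
    (A.filter fun x => g * x ∉ A).card ≤ r * (bd K A).card := by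
  induction r generalizing g with
  | zero =>
    rw [pow_zero, Finset.mem_one] at hg
    subst hg
    have : (A.filter fun x => (1 : Q) * x ∉ A) = ∅ := by
      rw [Finset.filter_eq_empty_iff]
      intro x hx
      simpa using hx
    rw [this]
    simp
  | succ r ih =>
    rw [pow_succ', Finset.mem_mul] at hg
    obtain ⟨k, hk, h, hh, rfl⟩ := hg
    have h1 : (A.filter fun x => k * h * x ∉ A) ⊆
        (A.filter fun x => h * x ∉ A) ∪ ((bd K A).image fun y => h⁻¹ * y) := by
      intro x hx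
      obtain ⟨hxA, hx2⟩ := Finset.mem_filter.1 hx
      by_cases h2 : h * x ∈ A
      · refine Finset.mem_union_right _ (Finset.mem_image.2 ⟨h * x, ?_, by group⟩)
        refine Finset.mem_filter.2 ⟨h2, k, hk, ?_⟩
        rw [smul_eq_mul, ← mul_assoc]
        exact hx2
      · exact Finset.mem_union_left _ (Finset.mem_filter.2 ⟨hxA, h2⟩)
    calc (A.filter fun x => k * h * x ∉ A).card
        ≤ ((A.filter fun x => h * x ∉ A) ∪ ((bd K A).image fun y => h⁻¹ * y)).card :=
          Finset.card_le_card h1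
      _ ≤ (A.filter fun x => h * x ∉ A).card + ((bd K A).image fun y => h⁻¹ * y).card :=
          Finset.card_union_le _ _
      _ ≤ r * (bd K A).card + (bd K A).card := add_le_add (ih h hh) Finset.card_image_le
      _ = (r + 1) * (bd K A).card := by ring

/-- Coulhon and Saloff-Coste -/
theorem csc (K : Finset Q) (A : Finset Q) (r : ℕ) (h : 2 * A.card ≤ (K ^ r).card)
    (hA : A.Nonempty) : A.card ≤ 2 * r * (bd K A).card := by
  have hsum : ∑ g ∈ K ^ r, (A.filter fun x => g * x ∉ A).card ≤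
      (K ^ r).card * (r * (bd K A).card) := by
    refine (Finset.sum_le_sum fun g hg => exits K A r g hg).trans ?_
    simp
  have hsum2 : ∑ g ∈ K ^ r, (A.filter fun x => g * x ∉ A).card =
      ∑ x ∈ A, ((K ^ r).filter fun g => g * x ∉ A).card := by
    simp_rw [Finset.card_filter]
    rw [Finset.sum_comm]
  have hlow : ∀ x ∈ A, (K ^ r).card ≤ 2 * ((K ^ r).filter fun g => g * x ∉ A).card := by
    intro x _
    have h1 : ((K ^ r).filter fun g => g * x ∈ A).card ≤ A.card := by
      refine Finset.card_le_card_of_injOn (fun g => g * x) ?_ ?_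
      · intro g hg
        exact (Finset.mem_filter.1 (Finset.mem_coe.1 hg)).2
      · intro a _ b _ hab
        exact mul_right_cancel hab
    have h2 := Finset.card_filter_add_card_filter_not (s := K ^ r) (fun g => g * x ∈ A)
    omega
  have h3 : A.card * (K ^ r).card ≤ 2 * ((K ^ r).card * (r * (bd K A).card)) := by
    calc A.card * (K ^ r).card = ∑ _x ∈ A, (K ^ r).card := by simp
      _ ≤ ∑ x ∈ A, 2 * ((K ^ r).filter fun g => g * x ∉ A).card := Finset.sum_le_sum hlow
      _ = 2 * ∑ x ∈ A, ((K ^ r).filter fun g => g * x ∉ A).card := by rw [Finset.mul_sum]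
      _ = 2 * ∑ g ∈ K ^ r, (A.filter fun x => g * x ∉ A).card := by rw [hsum2]
      _ ≤ _ := Nat.mul_le_mul_left 2 hsum
  have hpos : 0 < (K ^ r).card := by
    have := Finset.card_pos.2 hA
    omega
  have h4 : (K ^ r).card * A.card ≤ (K ^ r).card * (2 * r * (bd K A).card) := by
    calc (K ^ r).card * A.card = A.card * (K ^ r).card := by ring
      _ ≤ _ := h3
      _ = _ := by ring
  exact Nat.le_of_mul_le_mul_left h4 hpos

/-- left almost invariant finite sets from the Foelner condition -/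
theorem left_folner (hF : NG.Folner Q) {K : Finset Q} (hK : GenSet K) (d : ℝ) (hd : 0 < d) :
    ∃ F : Finset Q, F.Nonempty ∧ ((bd K F).card : ℝ) ≤ d * F.card := by
  have hKpos : (0 : ℝ) < K.card := by exact_mod_cast Finset.card_pos.2 ⟨1, hK.one⟩
  obtain ⟨F, hFne, hFc⟩ := hF K hK.one (d / K.card) (div_pos hd hKpos)
  refine ⟨F⁻¹, hFne.inv, ?_⟩
  have h1 : ∀ k ∈ K, (F⁻¹.filter fun x => k * x ∉ F⁻¹).card ≤ (F * K).card - F.card := by
    intro k hk
    have h2 : ((F⁻¹.filter fun x => k * x ∉ F⁻¹).image fun x => x⁻¹ * k⁻¹) ⊆ (F * K) \ F := by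
      intro y hy
      obtain ⟨x, hx, rfl⟩ := Finset.mem_image.1 hy
      obtain ⟨hx1, hx2⟩ := Finset.mem_filter.1 hx
      refine Finset.mem_sdiff.2 ⟨Finset.mul_mem_mul (Finset.mem_inv'.1 hx1) (hK.inv k hk), ?_⟩
      intro h3
      apply hx2
      rw [Finset.mem_inv', mul_inv_rev]
      exact h3
    have h3 : ((F⁻¹.filter fun x => k * x ∉ F⁻¹).image fun x => x⁻¹ * k⁻¹).card =
        (F⁻¹.filter fun x => k * x ∉ F⁻¹).card := by
      refine Finset.card_image_of_injective _ fun a b hab => ?_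
      exact inv_injective (mul_right_cancel hab)
    rw [← h3]
    refine (Finset.card_le_card h2).trans ?_
    have hsub : F ⊆ F * K := fun x hx => by
      have := Finset.mul_mem_mul hx hK.one
      rwa [mul_one] at this
    rw [Finset.card_sdiff_of_subset hsub]
  have hbd : (bd K F⁻¹).card ≤ K.card * ((F * K).card - F.card) := by
    have h2 : bd K F⁻¹ ⊆ K.biUnion fun k => F⁻¹.filter fun x => k * x ∉ F⁻¹ := by
      intro x hx
      obtain ⟨hx1, k, hk, hx2⟩ := Finset.mem_filter.1 hx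
      exact Finset.mem_biUnion.2 ⟨k, hk, Finset.mem_filter.2 ⟨hx1, hx2⟩⟩
    refine (Finset.card_le_card h2).trans (Finset.card_biUnion_le.trans ?_)
    refine (Finset.sum_le_sum h1).trans ?_
    simp
  have hsub : F ⊆ F * K := fun x hx => by
    have := Finset.mul_mem_mul hx hK.one
    rwa [mul_one] at this
  have hle : F.card ≤ (F * K).card := Finset.card_le_card hsub
  have h5 : ((bd K F⁻¹).card : ℝ) ≤ K.card * (((F * K).card : ℝ) - F.card) := by
    have : ((bd K F⁻¹).card : ℝ) ≤ ((K.card * ((F * K).card - F.card) : ℕ) : ℝ) := by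
      exact_mod_cast hbd
    rw [Nat.cast_mul, Nat.cast_sub hle] at this
    exact this
  rw [Finset.card_inv]
  calc ((bd K F⁻¹).card : ℝ) ≤ K.card * (((F * K).card : ℝ) - F.card) := h5
    _ ≤ K.card * ((1 + d / K.card) * F.card - F.card) := by gcongr
    _ = d * F.card := by field_simp; ring

/-- Polynomially almost invariant finite sets of arbitrarily good quality give polynomial growth
along a sequence (no amenability needed). -/
theorem core {K : Finset Q} (hK : GenSet K) (D : ℕ)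
    (hA : ∀ e : ℝ, 0 < e → ∃ A : Finset Q, A.Nonempty ∧
      ((bd K A).card : ℝ) ^ D ≤ e * (A.card : ℝ) ^ (D - 1)) : ∃ D, PolyIo K D := by
  have hmono : Monotone (gr K) := by
    intro a b hab
    exact Finset.card_le_card (Finset.pow_subset_pow_right hK.one hab)
  by_cases hb : ∃ B, ∀ n, gr K n ≤ B
  · obtain ⟨B, hB⟩ := hb
    refine ⟨0, B, Filter.Eventually.frequently (Filter.Eventually.of_forall fun n => ?_)⟩
    simpa using hB n
  push Not at hb
  have hD0 : D ≠ 0 := by
    rintro rfl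
    obtain ⟨A, _, h2⟩ := hA (1 / 2) (by norm_num)
    simp at h2
    norm_num at h2
  refine ⟨D, 2 * 4 ^ D, ?_⟩
  rw [Filter.frequently_atTop]
  intro m
  have hm0 : (0 : ℝ) < 2 * ((m : ℝ) + 2) := by positivity
  obtain ⟨A, hAne, hAbd⟩ := hA (1 / (2 * ((m : ℝ) + 2)) ^ D) (by positivity)
  have hex : ∃ r, 2 * A.card ≤ gr K r := by
    obtain ⟨r, hr⟩ := hb (2 * A.card)
    exact ⟨r, hr.le⟩
  set r := Nat.find hex with hr
  have hr1 : 2 * A.card ≤ gr K r := Nat.find_spec hex
  have hApos : 0 < A.card := Finset.card_pos.2 hAne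
  have hr0 : r ≠ 0 := by
    intro h0
    rw [h0] at hr1
    have : gr K 0 = 1 := by simp [gr]
    omega
  have hr2 : gr K (r - 1) < 2 * A.card := by
    have := Nat.find_min hex (m := r - 1) (by omega)
    omega
  have hcsc := csc K A r hr1 hAne
  -- |A| ≤ (2 r)^D e
  have hAr : (A.card : ℝ) ≤ (2 * r) ^ D * (1 / (2 * ((m : ℝ) + 2)) ^ D) := by
    have h1 : (A.card : ℝ) ≤ 2 * r * (bd K A).card := by exact_mod_cast hcsc
    have h2 : (A.card : ℝ) ^ D ≤ (2 * r) ^ D * ((bd K A).card : ℝ) ^ D := by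
      rw [← mul_pow]
      exact pow_le_pow_left₀ (Nat.cast_nonneg _) h1 D
    have h3 : (A.card : ℝ) ^ D ≤ (2 * r) ^ D * (1 / (2 * ((m : ℝ) + 2)) ^ D *
        (A.card : ℝ) ^ (D - 1)) :=
      h2.trans (mul_le_mul_of_nonneg_left hAbd (by positivity))
    have h4 : (A.card : ℝ) ^ D = (A.card : ℝ) * (A.card : ℝ) ^ (D - 1) := by
      rw [← pow_succ']
      congr 1
      omega
    rw [h4] at h3
    have h5 : (0 : ℝ) < (A.card : ℝ) ^ (D - 1) := by positivity
    refine le_of_mul_le_mul_right ?_ h5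
    linarith [h3, mul_assoc ((2 * (r : ℝ)) ^ D) (1 / (2 * ((m : ℝ) + 2)) ^ D)
      ((A.card : ℝ) ^ (D - 1))]
  have h1A : (1 : ℝ) ≤ A.card := by exact_mod_cast hApos
  -- r is large
  have hrm : m + 2 ≤ r := by
    have h1 : (1 : ℝ) ≤ (2 * r) ^ D * (1 / (2 * ((m : ℝ) + 2)) ^ D) := h1A.trans hAr
    have h2 : (2 * ((m : ℝ) + 2)) ^ D ≤ (2 * r) ^ D := by
      rw [mul_one_div, le_div_iff₀ (by positivity), one_mul] at h1
      exact h1
    have h3 : 2 * ((m : ℝ) + 2) ≤ 2 * r := le_of_pow_le_pow_left₀ hD0 (by positivity) h2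
    have h4 : (m : ℝ) + 2 ≤ r := by linarith
    exact_mod_cast h4
  refine ⟨r - 1, by omega, ?_⟩
  have h6 : ((gr K (r - 1) : ℕ) : ℝ) ≤ 2 * A.card := by exact_mod_cast hr2.le
  have h7 : (2 * r : ℝ) ^ D * (1 / (2 * ((m : ℝ) + 2)) ^ D) ≤ 4 ^ D * ((r - 1 : ℕ) : ℝ) ^ D := by
    have h8 : (1 : ℝ) / (2 * ((m : ℝ) + 2)) ^ D ≤ 1 := by
      rw [div_le_one (by positivity)]
      exact one_le_pow₀ (by linarith [(Nat.cast_nonneg m : (0 : ℝ) ≤ m)])
    have h9 : (2 * r : ℝ) ≤ 4 * ((r - 1 : ℕ) : ℝ) := by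
      rw [Nat.cast_sub (by omega)]
      have : (2 : ℝ) ≤ r := by exact_mod_cast (by omega : 2 ≤ r)
      push_cast
      linarith
    calc (2 * r : ℝ) ^ D * (1 / (2 * ((m : ℝ) + 2)) ^ D) ≤ (2 * r : ℝ) ^ D * 1 := by gcongr
      _ ≤ (4 * ((r - 1 : ℕ) : ℝ)) ^ D := by
        rw [mul_one]
        exact pow_le_pow_left₀ (by positivity) h9 D
      _ = _ := by rw [mul_pow]
  have h10 : ((gr K (r - 1) : ℕ) : ℝ) ≤ ((2 * 4 ^ D * (r - 1) ^ D : ℕ) : ℝ) := by
    push_cast
    calc ((gr K (r - 1) : ℕ) : ℝ) ≤ 2 * A.card := h6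
      _ ≤ 2 * (4 ^ D * ((r - 1 : ℕ) : ℝ) ^ D) := by linarith [hAr.trans h7]
      _ = _ := by ring
  exact_mod_cast h10

/-- Block E. -/
theorem ebk (hN : IsNoetherianRing (MonoidAlgebra ℤ Q)) (hW : WP Q Q) {K : Finset Q}
    (hK : GenSet K) : ∃ D, PolyIo K D := by
  have hF := NG.folner_of_noetherian hN
  obtain ⟨D, hD⟩ := hW K
  refine core hK D fun e he => ?_
  obtain ⟨d, hd, R, hR⟩ := hD e he
  obtain ⟨F, hF1, hF2⟩ := left_folner hF hK d hd
  obtain ⟨A, hA1, _, hA2⟩ := hR F hF1 hF2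
  exact ⟨A, hA1, hA2⟩

end Pool.Agent.NGM.H19
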