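import Pool.Agent.NGM.StmtsC

/-! Row TRF of squad NGM (MP_c602ad_al): the hypothesis on the action passes to limit groups. -/

set_option autoImplicit false

open scoped Classical Pointwise

universe u v

namespace Pool.Agent.NGM.H19

/-- neighbourhoods in a group acting on a set -/
theorem mem_ball_succ {G : Type u} [Group G] {X : Type v} [MulAction G X] (K : Finset G) (R : ℕ)
    (F : Finset X) (y : X) :
    y ∈ (insert 1 K) ^ (R + 1) • F ↔ ∃ k ∈ insert 1 K, ∃ z ∈ (insert 1 K) ^ R • F, k • z = y := by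
  rw [pow_succ', mul_smul, Finset.mem_smul]

theorem ball_mono {G : Type u} [Group G] {X : Type v} [MulAction G X] (K : Finset G) {R R' : ℕ}
    (h : R ≤ R') (F : Finset X) :
    (insert 1 K) ^ R • F ⊆ (insert 1 K) ^ R' • F := by
  induction h with
  | refl => exact Finset.Subset.refl _
  | step _ ih =>
    refine ih.trans fun y hy => ?_
    rw [mem_ball_succ]
    exact ⟨1, Finset.mem_insert_self _ _, y, hy, one_smul _ _⟩

theorem trf : TrfStmt.{u, v} := by
  intro G _ X _ L hL hW N Q _ φ hφ hker K'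
  -- a section
  let σ : Q → N := Function.surjInv hφ
  have hσ : ∀ q, φ (σ q) = q := Function.surjInv_eq hφ
  obtain ⟨D, hD⟩ := hW (K'.image fun q => ((σ q : N) : G))
  refine ⟨D, fun e he => ?_⟩
  obtain ⟨d, hd, R, hR⟩ := hD e he
  refine ⟨d, hd, R, fun F hF hbd => ?_⟩
  set K : Finset G := K'.image fun q => ((σ q : N) : G) with hK
  set E : Finset Q := (insert 1 K') ^ (R + 1) • F with hE
  obtain ⟨x, hx⟩ := hL (((E ×ˢ E).image fun p => (((σ p.1)⁻¹ * σ p.2 : N) : G)) ∪
    ((K' ×ˢ E).image fun p => (((σ (p.1 * p.2))⁻¹ * (σ p.1 * σ p.2) : N) : G)))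
  let θ : Q → X := fun q => ((σ q : N) : G) • x
  have hθinj : ∀ a ∈ E, ∀ b ∈ E, θ a = θ b → a = b := by
    intro a ha b hb hab
    have h1 : (((σ a)⁻¹ * σ b : N) : G) • x = x := by
      rw [Subgroup.coe_mul, mul_smul, Subgroup.coe_inv, inv_smul_eq_iff]
      exact hab.symm
    have h2 : (((σ a)⁻¹ * σ b : N) : G) ∈ L :=
      (hx _ (Finset.mem_union_left _ (Finset.mem_image.2
        ⟨(a, b), Finset.mem_product.2 ⟨ha, hb⟩, rfl⟩))).2 h1
    have h3 := (hker _).2 h2
    rw [map_mul, map_inv, hσ, hσ] at h3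
    exact (inv_mul_eq_one.1 h3)
  have hθmul : ∀ k ∈ K', ∀ a ∈ E, ((σ k : N) : G) • θ a = θ (k * a) := by
    intro k hk a ha
    have h1 : φ ((σ (k * a))⁻¹ * (σ k * σ a)) = 1 := by
      rw [map_mul, map_inv, map_mul, hσ, hσ, hσ, inv_mul_cancel]
    have h2 := (hx _ (Finset.mem_union_right _ (Finset.mem_image.2
        ⟨(k, a), Finset.mem_product.2 ⟨hk, ha⟩, rfl⟩))).1 ((hker _).1 h1)
    simp only [θ]
    rw [Subgroup.coe_mul, mul_smul, Subgroup.coe_inv, inv_smul_eq_iff, Subgroup.coe_mul,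
      mul_smul] at h2
    exact h2
  have hball : ∀ j ≤ R, (insert 1 K) ^ j • (F.image θ) ⊆ ((insert 1 K') ^ j • F).image θ := by
    intro j
    induction j with
    | zero => intro _; simp
    | succ j ih =>
      intro hj y hy
      rw [mem_ball_succ] at hy
      obtain ⟨k, hk, z, hz, rfl⟩ := hy
      obtain ⟨a, ha, rfl⟩ := Finset.mem_image.1 (ih (by omega) hz)
      have haE : a ∈ E := ball_mono K' (by omega) F ha
      rcases Finset.mem_insert.1 hk with rfl | hk
      · rw [one_smul]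
        exact Finset.mem_image_of_mem _ (ball_mono K' (Nat.le_succ j) F ha)
      · obtain ⟨k', hk', rfl⟩ := Finset.mem_image.1 hk
        rw [hθmul k' hk' a haE]
        refine Finset.mem_image_of_mem _ ?_
        rw [mem_ball_succ]
        exact ⟨k', Finset.mem_insert_of_mem hk', a, ha, rfl⟩
  have hFE : F ⊆ E := by
    have := ball_mono K' (Nat.zero_le (R + 1)) F
    rwa [pow_zero, one_smul] at this
  have hcardF : (F.image θ).card = F.card :=
    Finset.card_image_of_injOn fun a ha b hb => hθinj a (hFE ha) b (hFE hb)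
  have hstep : ∀ k ∈ K', ∀ a ∈ (insert 1 K') ^ R • F, k * a ∈ E := by
    intro k hk a ha
    rw [hE, mem_ball_succ]
    exact ⟨k, Finset.mem_insert_of_mem hk, a, ha, rfl⟩
  have hF0 : F ⊆ (insert 1 K') ^ R • F := by
    have := ball_mono K' (Nat.zero_le R) F
    rwa [pow_zero, one_smul] at this
  have hbdF : (bd K (F.image θ)).card ≤ (bd K' F).card := by
    refine (Finset.card_le_card (?_ : bd K (F.image θ) ⊆ (bd K' F).image θ)).trans
      Finset.card_image_le
    intro y hy
    obtain ⟨h1, k, hk, h2⟩ := Finset.mem_filter.1 hy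
    obtain ⟨a, ha, rfl⟩ := Finset.mem_image.1 h1
    obtain ⟨k', hk', rfl⟩ := Finset.mem_image.1 hk
    refine Finset.mem_image_of_mem _ (Finset.mem_filter.2 ⟨ha, k', hk', fun h3 => h2 ?_⟩)
    rw [hθmul k' hk' a (hFE ha)]
    exact Finset.mem_image_of_mem _ h3
  obtain ⟨A₀, hA₀ne, hA₀sub, hA₀⟩ := hR (F.image θ) (hF.image θ) (by
    rw [hcardF]
    exact le_trans (by exact_mod_cast hbdF) hbd)
  have hA₀sub' : A₀ ⊆ ((insert 1 K') ^ R • F).image θ := hA₀sub.trans (hball R le_rfl)
  set A : Finset Q := ((insert 1 K') ^ R • F).filter fun a => θ a ∈ A₀ with hA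
  have hAE : ∀ a ∈ A, a ∈ E := fun a ha =>
    ball_mono K' (Nat.le_succ R) F (Finset.mem_filter.1 ha).1
  have hAimg : A.image θ = A₀ := by
    ext y
    constructor
    · intro hy
      obtain ⟨a, ha, rfl⟩ := Finset.mem_image.1 hy
      exact (Finset.mem_filter.1 ha).2
    · intro hy
      obtain ⟨a, ha, rfl⟩ := Finset.mem_image.1 (hA₀sub' hy)
      exact Finset.mem_image_of_mem _ (Finset.mem_filter.2 ⟨ha, hy⟩)
  have hcardA : A.card = A₀.card := by
    rw [← hAimg]
    exact (Finset.card_image_of_injOn fun a ha b hb => hθinj a (hAE a ha) b (hAE b hb)).symm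
  refine ⟨A, ?_, Finset.filter_subset _ _, ?_⟩
  · rw [← Finset.card_pos, hcardA, Finset.card_pos]
    exact hA₀ne
  · have hbdA : (bd K' A).card ≤ (bd K A₀).card := by
      have h1 : (bd K' A).image θ ⊆ bd K A₀ := by
        intro y hy
        obtain ⟨a, ha, rfl⟩ := Finset.mem_image.1 hy
        obtain ⟨h1, k, hk, h2⟩ := Finset.mem_filter.1 ha
        refine Finset.mem_filter.2 ⟨(Finset.mem_filter.1 h1).2, ((σ k : N) : G),
          Finset.mem_image_of_mem _ hk, fun h3 => h2 ?_⟩
        rw [hθmul k hk a (hAE a h1), ← hAimg] at h3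
        obtain ⟨b, hb, hbe⟩ := Finset.mem_image.1 h3
        have h4 : b = k * a := hθinj b (hAE b hb) (k * a)
          (hstep k hk a (Finset.mem_filter.1 h1).1) hbe
        rw [smul_eq_mul, ← h4]
        exact hb
      have h2 : ((bd K' A).image θ).card = (bd K' A).card :=
        Finset.card_image_of_injOn fun a ha b hb =>
          hθinj a (hAE a (Finset.mem_filter.1 ha).1) b (hAE b (Finset.mem_filter.1 hb).1)
      rw [← h2]
      exact Finset.card_le_card h1
    rw [hcardA]
    refine le_trans ?_ hA₀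
    exact pow_le_pow_left₀ (Nat.cast_nonneg _) (by exact_mod_cast hbdA) D

end Pool.Agent.NGM.H19
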