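import Pool.Agent.NGM.StmtsC

/-! Row VPG of squad NGM (MP_c602ad_al): gluing finitely many almost polycyclic quotients. -/

set_option autoImplicit false

open scoped Classical Pointwise

universe u v

namespace Pool.Agent.NGM.H19

/-- one quotient: a finite index subgroup with a term of the derived series in `L` -/
theorem vpg_one {G : Type u} [Group G] (L N : Subgroup G) (Q : Type u) [Group Q] (φ : N →* Q)
    (hφ : Function.Surjective φ) (hN : N.index ≠ 0) (hker : ∀ n : N, φ n = 1 ↔ (n : G) ∈ L)
    (hQ : AP Q) : ∃ (H : Subgroup G) (n : ℕ), H.index ≠ 0 ∧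
      ∀ g : H, g ∈ derivedSeries H n → (g : G) ∈ L := by
  obtain ⟨S, hS, hsol, -⟩ := hQ
  obtain ⟨n, hn⟩ := hsol
  refine ⟨(S.comap φ).map N.subtype, n, ?_, ?_⟩
  · rw [Subgroup.index_map_subtype, Subgroup.index_comap_of_surjective _ hφ]
    exact mul_ne_zero hS hN
  · intro g hg
    let ε := (S.comap φ).equivMapOfInjective N.subtype N.subtype_injective
    let ψ : (S.comap φ) →* S := (φ.comp (S.comap φ).subtype).codRestrict S (fun x => x.2)
    let f : ((S.comap φ).map N.subtype) →* S := ψ.comp ε.symm.toMonoidHom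
    have h1 : f g ∈ derivedSeries S n :=
      map_derivedSeries_le_derivedSeries f n (Subgroup.mem_map_of_mem f hg)
    rw [hn, Subgroup.mem_bot] at h1
    have h2 : φ ((ε.symm g : S.comap φ) : N) = 1 := congrArg Subtype.val h1
    have h3 := (hker _).1 h2
    have h4 : (((ε.symm g : S.comap φ) : N) : G) = (g : G) := by
      have h5 : ε (ε.symm g) = g := ε.apply_symm_apply g
      have h6 := Subgroup.coe_equivMapOfInjective_apply (S.comap φ) N.subtype N.subtype_injective
        (ε.symm g)
      have h7 : ((ε (ε.symm g) : (S.comap φ).map N.subtype) : G) = (g : G) := by rw [h5]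
      exact h6.symm.trans h7
    rwa [h4] at h3

/-- monotonicity of the derived series -/
theorem derived_mono {G : Type u} [Group G] {H H' : Subgroup G} (h : H ≤ H') {n m : ℕ}
    (hnm : m ≤ n) {g : H} (hg : g ∈ derivedSeries H n) :
    (⟨g, h g.2⟩ : H') ∈ derivedSeries H' m := by
  have h1 : Subgroup.inclusion h g ∈ derivedSeries H' n :=
    map_derivedSeries_le_derivedSeries (Subgroup.inclusion h) n (Subgroup.mem_map_of_mem _ hg)
  exact derivedSeries_antitone (G := H') hnm h1

theorem vpg : VpgStmt.{u} := by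
  intro G _ s hfg hs hbot hL
  -- one subgroup for all L in s
  have key : ∀ t : Set (Subgroup G), t.Finite → t ⊆ s → ∃ (H : Subgroup G) (n : ℕ), H.index ≠ 0 ∧
      ∀ g : H, g ∈ derivedSeries H n → ∀ L ∈ t, (g : G) ∈ L := by
    intro t ht
    induction t, ht using Set.Finite.induction_on with
    | empty => exact fun _ => ⟨⊤, 0, by simp, by simp⟩
    | @insert L t _ _ ih =>
      intro hts
      obtain ⟨H, n, hH, hg⟩ := ih ((Set.subset_insert _ _).trans hts)
      obtain ⟨N, Q, _, φ, hN, hφ, hker, hQ⟩ := hL L (hts (Set.mem_insert _ _))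
      obtain ⟨H', n', hH', hg'⟩ := vpg_one L N Q φ hφ hN hker hQ
      refine ⟨H ⊓ H', max n n', ?_, ?_⟩
      · exact Subgroup.index_inf_ne_zero hH hH'
      · intro g hgd L₁ hL₁
        rcases Set.mem_insert_iff.1 hL₁ with rfl | hL₁
        · exact hg' _ (derived_mono (inf_le_right : H ⊓ H' ≤ H') (le_max_right n n') hgd)
        · exact hg _ (derived_mono (inf_le_left : H ⊓ H' ≤ H) (le_max_left n n') hgd) L₁ hL₁
  obtain ⟨H, n, hH, hg⟩ := key s hs (le_refl _)
  refine ⟨H, hH, ⟨n, ?_⟩, ?_⟩
  · rw [eq_bot_iff]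
    intro g hgd
    have h1 : (g : G) ∈ sInf s := Subgroup.mem_sInf.2 fun L hLs => hg g hgd L hLs
    rw [hbot, Subgroup.mem_bot] at h1
    exact Subgroup.mem_bot.2 (Subtype.ext h1)
  · intro K
    have h1 := hfg (K.map H.subtype)
    have h2 : Group.FG (K.map H.subtype) := (Group.fg_iff_subgroup_fg _).2 h1
    have h3 : Group.FG K :=
      Group.fg_of_surjective (f := (K.equivMapOfInjective H.subtype
        H.subtype_injective).symm.toMonoidHom) (K.equivMapOfInjective H.subtype
        H.subtype_injective).symm.surjective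
    exact (Group.fg_iff_subgroup_fg _).1 h3

end Pool.Agent.NGM.H19
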