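import Pool.Agent.NGM.StmtsL
import Pool.Agent.Helper63_NGR.Fgs
import Pool.Agent.Helper19_NGM.CTR
import Pool.Agent.Helper19_NGM.TRF
import Pool.Agent.Helper19_NGM.VPG
import Pool.Agent.Helper19_NGM.EBK

/-! Assembly of squad NGM (MP_c602ad_al): Noetherian group rings and actions with polynomially
almost invariant sets. -/

set_option autoImplicit false

open scoped Classical Pointwise

universe u v

namespace Pool.Agent.NGM.H19

/-- the group ring of a quotient of a subgroup is Noetherian -/
theorem noeth_quot {G : Type u} [Group G] {N : Subgroup G} {Q : Type u} [Group Q] (φ : N →* Q)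
    (hφ : Function.Surjective φ) (h : IsNoetherianRing (MonoidAlgebra ℤ G)) :
    IsNoetherianRing (MonoidAlgebra ℤ Q) := by
  have hN : IsNoetherianRing (MonoidAlgebra ℤ N) := (NGR.H63.fgs h N).2
  have hs : Function.Surjective (MonoidAlgebra.mapDomainRingHom ℤ φ) := by
    intro x
    obtain ⟨y, hy⟩ := Finsupp.mapDomain_surjective (M := ℤ) hφ x.coeff
    refine ⟨.ofCoeff y, ?_⟩
    rw [MonoidAlgebra.mapDomainRingHom_apply]
    ext g
    simp only [MonoidAlgebra.mapDomain]
    rw [← hy]
  exact isNoetherianRing_of_surjective _ _ _ hs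

/-- a finite symmetric generating set -/
theorem exists_genSet {Q : Type u} [Group Q] (h : (⊤ : Subgroup Q).FG) :
    ∃ K : Finset Q, GenSet K := by
  obtain ⟨T, hT⟩ := h
  refine ⟨insert 1 (T ∪ T⁻¹), Finset.mem_insert_self _ _, ?_, ?_⟩
  · intro s hs
    simp only [Finset.mem_insert, Finset.mem_union, Finset.mem_inv'] at hs ⊢
    rcases hs with rfl | hs | hs
    · left; simp
    · right; right; simpa using hs
    · right; left; exact hs
  · rw [eq_top_iff, ← hT, Subgroup.closure_le]
    intro t ht
    refine Subgroup.subset_closure ?_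
    simp only [Finset.coe_insert, Finset.coe_union]
    exact Or.inr (Or.inl ht)

/-- THEOREM W (from Gromov's theorem for groups with max). -/
theorem asm (hGRO : GroStmt.{u}) {G : Type u} [Group G] {X : Type v} [MulAction G X]
    [FaithfulSMul G X] (hG : IsNoetherianRing (MonoidAlgebra ℤ G)) (hW : WP G X) : AP G := by
  have hfg : ∀ H : Subgroup G, H.FG := fun H => (NGR.H63.fgs hG H).1
  obtain ⟨s, hs, hsL, hbot⟩ := ctr G X hfg
  refine vpg G s hfg hs hbot fun L hL => ?_
  obtain ⟨hidx, hlim⟩ := hsL L hL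
  have hsurj := QuotientGroup.mk'_surjective
    (L.subgroupOf (Subgroup.normalizer (L : Set G)))
  have hker : ∀ n : Subgroup.normalizer (L : Set G),
      QuotientGroup.mk' (L.subgroupOf (Subgroup.normalizer (L : Set G))) n = 1 ↔ (n : G) ∈ L := by
    intro n
    rw [QuotientGroup.mk'_apply, QuotientGroup.eq_one_iff, Subgroup.mem_subgroupOf]
  refine ⟨Subgroup.normalizer (L : Set G), _ ⧸ L.subgroupOf (Subgroup.normalizer (L : Set G)),
    inferInstance, QuotientGroup.mk' _, hidx, hsurj, hker, ?_⟩
  have hQ := noeth_quot _ hsurj hG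
  have hQfg : ∀ H : Subgroup (_ ⧸ L.subgroupOf (Subgroup.normalizer (L : Set G))), H.FG :=
    fun H => (NGR.H63.fgs hQ H).1
  obtain ⟨K, hK⟩ := exists_genSet (hQfg ⊤)
  obtain ⟨D, hD⟩ := ebk hQ (trf G X L hlim hW _ _ _ hsurj hker) hK
  exact hGRO _ hQfg K D hK hD

end Pool.Agent.NGM.H19
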