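import Pool.Agent.NGM.StmtsE

/-! Row CSG of squad NGM (MP_c602ad_al): from `G ⧸ L` to the normaliser modulo `L`. -/

set_option autoImplicit false

open scoped Classical Pointwise

universe u v w

namespace Pool.Agent.NGM.H19

/-- a word of length r moves at most `r |bd A|` points of `A` out of `A` -/
theorem exits_smul {G : Type u} [Group G] {Y : Type v} [MulAction G Y] (S : Finset G)
    (A : Finset Y) (r : ℕ) (g : G) (hg : g ∈ S ^ r) :
    (A.filter fun x => g • x ∉ A).card ≤ r * (bd S A).card := by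
  induction r generalizing g with
  | zero =>
    rw [pow_zero, Finset.mem_one] at hg
    subst hg
    have : (A.filter fun x => (1 : G) • x ∉ A) = ∅ := by
      rw [Finset.filter_eq_empty_iff]
      intro x hx
      rw [one_smul, not_not]
      exact hx
    rw [this]
    simp
  | succ r ih =>
    rw [pow_succ', Finset.mem_mul] at hg
    obtain ⟨k, hk, h, hh, rfl⟩ := hg
    have h1 : (A.filter fun x => (k * h) • x ∉ A) ⊆
        (A.filter fun x => h • x ∉ A) ∪ ((bd S A).image fun y => h⁻¹ • y) := by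
      intro x hx
      obtain ⟨hxA, hx2⟩ := Finset.mem_filter.1 hx
      by_cases h2 : h • x ∈ A
      · refine Finset.mem_union_right _ (Finset.mem_image.2 ⟨h • x, ?_, inv_smul_smul h x⟩)
        refine Finset.mem_filter.2 ⟨h2, k, hk, ?_⟩
        rw [← mul_smul]
        exact hx2
      · exact Finset.mem_union_left _ (Finset.mem_filter.2 ⟨hxA, h2⟩)
    calc (A.filter fun x => (k * h) • x ∉ A).card
        ≤ ((A.filter fun x => h • x ∉ A) ∪ ((bd S A).image fun y => h⁻¹ • y)).card :=
          Finset.card_le_card h1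
      _ ≤ (A.filter fun x => h • x ∉ A).card + ((bd S A).image fun y => h⁻¹ • y).card :=
          Finset.card_union_le _ _
      _ ≤ r * (bd S A).card + (bd S A).card := add_le_add (ih h hh) Finset.card_image_le
      _ = (r + 1) * (bd S A).card := by ring

/-- every element is a word -/
theorem exists_word {G : Type u} [Group G] {S : Finset G} (hS : GenSet S) (g : G) :
    ∃ n : ℕ, g ∈ S ^ n := by
  have hg : g ∈ Subgroup.closure (S : Set G) := by rw [hS.top]; trivial
  induction hg using Subgroup.closure_induction with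
  | mem x hx => exact ⟨1, by simpa using hx⟩
  | one => exact ⟨0, by simp⟩
  | mul x y _ _ hx hy =>
    obtain ⟨a, ha⟩ := hx
    obtain ⟨b, hb⟩ := hy
    exact ⟨a + b, by rw [pow_add]; exact Finset.mul_mem_mul ha hb⟩
  | inv x _ hx =>
    obtain ⟨a, ha⟩ := hx
    refine ⟨a, ?_⟩
    have hSi : S⁻¹ = S := by
      ext s
      rw [Finset.mem_inv']
      constructor
      · intro h
        have := hS.inv _ h
        rwa [inv_inv] at this
      · exact hS.inv s
    have h1 : x⁻¹ ∈ (S ^ a)⁻¹ := by rw [Finset.mem_inv', inv_inv]; exact ha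
    rwa [← inv_pow, hSi] at h1

/-- abstract form -/
theorem csg_abs {G : Type u} [Group G] {Y : Type v} [MulAction G Y] {Q : Type w} [Group Q]
    {C : Type u} [Fintype C] {S : Finset G} (hS : GenSet S) (π : Y → C) (ψ : C → Q → Y)
    (hinj : ∀ c, Function.Injective (ψ c)) (hπ : ∀ y, ∃ q, ψ (π y) q = y)
    (hact : ∀ (c : C) (k : Q), ∃ g : G, ∀ q, g • ψ c q = ψ c (k * q)) (D : ℕ)
    (hI : Iso S Y D) (K : Finset Q) : Iso K Q D := by
  choose g hg using hact
  choose n hn using fun (c : C) (k : Q) => exists_word hS (g c k)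
  -- a common bound for the length
  set ℓ : ℕ := ∑ c : C, ∑ k ∈ K, n c k with hℓ
  have hnℓ : ∀ c, ∀ k ∈ K, n c k ≤ ℓ := by
    intro c k hk
    calc n c k ≤ ∑ k ∈ K, n c k := Finset.single_le_sum (fun _ _ => Nat.zero_le _) hk
      _ ≤ ℓ := Finset.single_le_sum (f := fun c => ∑ k ∈ K, n c k)
        (fun _ _ => Nat.zero_le _) (Finset.mem_univ c)
  intro e he
  set M : ℝ := ((K.card : ℝ) * ℓ + 1) ^ D * ((Fintype.card C : ℝ) + 1) ^ (D - 1) with hM
  have hMpos : 0 < M := by positivity
  obtain ⟨A, hAne, hIp⟩ := hI (e / M) (div_pos he hMpos)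
  -- the largest piece
  have hpiece : ∃ c : C, A.card ≤ Fintype.card C *
      (A.preimage (ψ c) ((hinj c).injOn)).card := by
    by_contra hcon
    push Not at hcon
    obtain ⟨y₀, hy₀⟩ := hAne
    have hCne : (Finset.univ : Finset C).Nonempty := ⟨π y₀, Finset.mem_univ _⟩
    have h1 : A ⊆ Finset.univ.biUnion fun c =>
        (A.preimage (ψ c) ((hinj c).injOn)).image (ψ c) := by
      intro y hy
      obtain ⟨q, hq⟩ := hπ y
      refine Finset.mem_biUnion.2 ⟨π y, Finset.mem_univ _, Finset.mem_image.2 ⟨q, ?_, hq⟩⟩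
      rw [Finset.mem_preimage, hq]
      exact hy
    have h2 : A.card ≤ ∑ c : C, (A.preimage (ψ c) ((hinj c).injOn)).card :=
      (Finset.card_le_card h1).trans (Finset.card_biUnion_le.trans
        (Finset.sum_le_sum fun c _ => Finset.card_image_le))
    have h3 : ∑ c : C, Fintype.card C * (A.preimage (ψ c) ((hinj c).injOn)).card <
        ∑ _c : C, A.card := Finset.sum_lt_sum_of_nonempty hCne fun c _ => hcon c
    rw [← Finset.mul_sum, Finset.sum_const, Finset.card_univ, smul_eq_mul] at h3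
    exact absurd (lt_of_mul_lt_mul_left h3 (Nat.zero_le _)) (not_lt.2 h2)
  obtain ⟨c, hc⟩ := hpiece
  set B : Finset Q := A.preimage (ψ c) ((hinj c).injOn) with hB
  have hBne : B.Nonempty := by
    rw [← Finset.card_pos]
    have := Finset.card_pos.2 hAne
    by_contra h0
    have : B.card = 0 := by omega
    rw [this] at hc
    omega
  have hone : ∀ k ∈ K, (B.filter fun q => k * q ∉ B).card ≤ ℓ * (bd S A).card := by
    intro k hk
    have h1 : (B.filter fun q => k * q ∉ B).card ≤ (A.filter fun y => g c k • y ∉ A).card := by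
      refine Finset.card_le_card_of_injOn (ψ c) ?_ ((hinj c).injOn)
      intro q hq
      obtain ⟨hq1, hq2⟩ := Finset.mem_filter.1 (Finset.mem_coe.1 hq)
      refine Finset.mem_coe.2 (Finset.mem_filter.2 ⟨Finset.mem_preimage.1 hq1, ?_⟩)
      rw [hg]
      intro h2
      exact hq2 (Finset.mem_preimage.2 h2)
    refine h1.trans ((exits_smul S A (n c k) (g c k) (hn c k)).trans ?_)
    exact Nat.mul_le_mul_right _ (hnℓ c k hk)
  have hbd : (bd K B).card ≤ K.card * (ℓ * (bd S A).card) := by
    have h2 : bd K B ⊆ K.biUnion fun k => B.filter fun q => k * q ∉ B := by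
      intro x hx
      obtain ⟨hx1, k, hk, hx2⟩ := Finset.mem_filter.1 hx
      exact Finset.mem_biUnion.2 ⟨k, hk, Finset.mem_filter.2 ⟨hx1, hx2⟩⟩
    refine (Finset.card_le_card h2).trans (Finset.card_biUnion_le.trans ?_)
    refine (Finset.sum_le_sum hone).trans ?_
    simp
  refine ⟨B, hBne, ?_⟩
  have h1 : ((bd K B).card : ℝ) ≤ ((K.card : ℝ) * ℓ + 1) * (bd S A).card := by
    have h2 : ((bd K B).card : ℝ) ≤ (K.card : ℝ) * (ℓ * (bd S A).card) := by exact_mod_cast hbd
    have h3 : (0 : ℝ) ≤ (bd S A).card := Nat.cast_nonneg _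
    nlinarith
  have h2 : (A.card : ℝ) ≤ ((Fintype.card C : ℝ) + 1) * B.card := by
    have h3 : (A.card : ℝ) ≤ (Fintype.card C : ℝ) * B.card := by exact_mod_cast hc
    have h4 : (0 : ℝ) ≤ B.card := Nat.cast_nonneg _
    nlinarith
  calc ((bd K B).card : ℝ) ^ D ≤ (((K.card : ℝ) * ℓ + 1) * (bd S A).card) ^ D :=
        pow_le_pow_left₀ (Nat.cast_nonneg _) h1 D
    _ = ((K.card : ℝ) * ℓ + 1) ^ D * ((bd S A).card : ℝ) ^ D := by rw [mul_pow]
    _ ≤ ((K.card : ℝ) * ℓ + 1) ^ D * (e / M * (A.card : ℝ) ^ (D - 1)) := by gcongr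
    _ ≤ ((K.card : ℝ) * ℓ + 1) ^ D * (e / M *
        (((Fintype.card C : ℝ) + 1) * B.card) ^ (D - 1)) := by gcongr
    _ = e / M * M * (B.card : ℝ) ^ (D - 1) := by rw [hM, mul_pow]; ring
    _ = e * (B.card : ℝ) ^ (D - 1) := by rw [div_mul_cancel₀ _ hMpos.ne']

theorem csg : CsgStmt.{u} := by
  intro G _ L S D hS hidx hI K
  have hfi : (Subgroup.normalizer (L : Set G)).FiniteIndex := ⟨hidx⟩
  have hfin : Fintype (G ⧸ Subgroup.normalizer (L : Set G)) := Fintype.ofFinite _
  have hmk : ∀ (a b : G), ((a : G ⧸ L) = (b : G ⧸ L)) ↔ a⁻¹ * b ∈ L := fun a b => QuotientGroup.eq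
  have hmkQ : ∀ (a b : Subgroup.normalizer (L : Set G)), ((a : NQ L) = (b : NQ L)) ↔
      (a : G)⁻¹ * b ∈ L := fun a b => by
    rw [QuotientGroup.eq, Subgroup.mem_subgroupOf]
    simp
  refine csg_abs (Y := G ⧸ L) (Q := NQ L) (C := G ⧸ Subgroup.normalizer (L : Set G)) hS
    (fun y => (y.out : G ⧸ Subgroup.normalizer (L : Set G)))
    (fun c q => ((c.out * (q.out : G) : G) : G ⧸ L)) ?_ ?_ ?_ D hI K
  · intro c q q' h
    rw [hmk] at h
    have h1 : (q.out : G)⁻¹ * q'.out ∈ L := by
      have h2 : (c.out * (q.out : G))⁻¹ * (c.out * (q'.out : G)) = (q.out : G)⁻¹ * q'.out := by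
        group
      rwa [h2] at h
    have h3 := (hmkQ q.out q'.out).2 h1
    rwa [QuotientGroup.out_eq', QuotientGroup.out_eq'] at h3
  · intro y
    have h1 : ((y.out : G ⧸ Subgroup.normalizer (L : Set G)).out)⁻¹ * y.out ∈
        Subgroup.normalizer (L : Set G) := by
      rw [← QuotientGroup.eq, QuotientGroup.out_eq']
    refine ⟨((⟨_, h1⟩ : Subgroup.normalizer (L : Set G)) : NQ L), ?_⟩
    set c := (y.out : G ⧸ Subgroup.normalizer (L : Set G)) with hc
    set q : NQ L := ((⟨_, h1⟩ : Subgroup.normalizer (L : Set G)) : NQ L) with hq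
    have h2 : ((q.out : Subgroup.normalizer (L : Set G)) : NQ L) = q := QuotientGroup.out_eq' q
    rw [hq, hmkQ] at h2
    simp only at h2 ⊢
    conv_rhs => rw [← QuotientGroup.out_eq' y]
    rw [hmk]
    have h3 : (c.out * (q.out : G))⁻¹ * y.out = (q.out : G)⁻¹ * (c.out⁻¹ * y.out) := by group
    rw [h3]
    exact h2
  · intro c k
    refine ⟨c.out * (k.out : G) * c.out⁻¹, fun q => ?_⟩
    have h1 : (((k * q).out : Subgroup.normalizer (L : Set G)) : NQ L) =
        ((k.out * q.out : Subgroup.normalizer (L : Set G)) : NQ L) := by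
      rw [QuotientGroup.out_eq', QuotientGroup.mk_mul, QuotientGroup.out_eq', QuotientGroup.out_eq']
    rw [eq_comm, hmkQ] at h1
    change ((c.out * (k.out : G) * c.out⁻¹ * (c.out * (q.out : G)) : G) : G ⧸ L) = _
    rw [hmk]
    have h3 : (c.out * (k.out : G) * c.out⁻¹ * (c.out * (q.out : G)))⁻¹ *
        (c.out * ((k * q).out : G)) =
        (((k.out * q.out : Subgroup.normalizer (L : Set G)) : G))⁻¹ * ((k * q).out : G) := by
      push_cast
      group
    rw [h3]
    exact h1

end Pool.Agent.NGM.H19
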