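import Pool.Agent.NGM.StmtsE

/-! Row TRE of squad NGM (MP_c602ad_al): level transitive groups of tree automorphisms. -/

set_option autoImplicit false

open scoped Classical Pointwise

universe u v

namespace Pool.Agent.NGM.H19

section

variable {α : ℕ → Type v}

/-- the word `w` followed by the tail of `x` -/
noncomputable def glue {m : ℕ} (w : ∀ i : Fin m, α i) (x : ∀ i, α i) : ∀ i, α i :=
  fun i => if h : i < m then w ⟨i, h⟩ else x i

theorem glue_lt {m : ℕ} (w : ∀ i : Fin m, α i) (x : ∀ i, α i) {i : ℕ} (h : i < m) :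
    glue w x i = w ⟨i, h⟩ := dif_pos h

theorem glue_fin {m : ℕ} (w : ∀ i : Fin m, α i) (x : ∀ i, α i) (i : Fin m) :
    glue w x i = w i := dif_pos i.2

theorem glue_ge {m : ℕ} (w : ∀ i : Fin m, α i) (x : ∀ i, α i) {i : ℕ} (h : m ≤ i) :
    glue w x i = x i := dif_neg (not_lt.2 h)

theorem glue_inj {m : ℕ} {w w' : ∀ i : Fin m, α i} {x : ∀ i, α i} (h : glue w x = glue w' x) :
    w = w' := by
  funext i
  have := congrFun h i
  rwa [glue_fin, glue_fin] at this

variable {G : Type u} [Group G] [MulAction G (∀ i, α i)]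

/-- the action on words of length `m`, through a base point -/
noncomputable def aw (x₀ : ∀ i, α i) {m : ℕ} (g : G) (w : ∀ i : Fin m, α i) :
    ∀ i : Fin m, α i := fun i => (g • glue w x₀) i

theorem aw_of {x₀ : ∀ i, α i} (hT : IsTree G α) {m : ℕ} (g : G) (w : ∀ i : Fin m, α i)
    (x : ∀ i, α i) (hx : ∀ i : Fin m, x i = w i) (i : Fin m) : (g • x) i = aw x₀ g w i := by
  refine hT g m x (glue w x₀) (fun j hj => ?_) i i.2
  rw [glue_lt w x₀ hj]
  exact hx ⟨j, hj⟩

/-- inactive elements act by changing the beginning only -/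
theorem smul_glue {x₀ : ∀ i, α i} (hT : IsTree G α) {m : ℕ} {g : G} {w : ∀ i : Fin m, α i}
    (hw : w ∉ actv α g m) (x : ∀ i, α i) : g • glue w x = glue (aw x₀ g w) x := by
  funext i
  by_cases h : i < m
  · rw [glue_lt _ _ h]
    exact aw_of hT g w (glue w x) (fun j => glue_fin w x j) ⟨i, h⟩
  · have h := not_lt.1 h
    rw [glue_ge _ _ h]
    by_contra hne
    apply hw
    refine ⟨glue w x, fun j => glue_fin w x j, i, h, ?_⟩
    rw [glue_ge _ _ h]
    exact hne

theorem actv_mul {x₀ : ∀ i, α i} (hT : IsTree G α) {m : ℕ} {g h : G} {w : ∀ i : Fin m, α i}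
    (hw : w ∉ actv α h m) (hg : aw x₀ h w ∉ actv α g m) :
    w ∉ actv α (g * h) m ∧ aw x₀ (g * h) w = aw x₀ g (aw x₀ h w) := by
  have key : ∀ x : ∀ i, α i, (g * h) • glue w x = glue (aw x₀ g (aw x₀ h w)) x := by
    intro x
    rw [mul_smul, smul_glue hT hw, smul_glue hT hg]
  constructor
  · rintro ⟨x, hx, i, hi, hne⟩
    have hxg : x = glue w x := by
      funext j
      by_cases hj : j < m
      · rw [glue_lt _ _ hj]
        exact hx ⟨j, hj⟩
      · rw [glue_ge _ _ (not_lt.1 hj)]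
    apply hne
    conv_lhs => rw [hxg]
    rw [key x, glue_ge _ _ hi]
  · funext i
    have := congrFun (key x₀) i
    rw [glue_fin] at this
    exact this

theorem one_notMem_actv {m : ℕ} (w : ∀ i : Fin m, α i) : w ∉ actv α (1 : G) m := by
  rintro ⟨x, _, i, _, hne⟩
  exact hne (by rw [one_smul])

theorem aw_one {x₀ : ∀ i, α i} {m : ℕ} (w : ∀ i : Fin m, α i) : aw x₀ (1 : G) w = w := by
  funext i
  simp only [aw]
  rw [one_smul, glue_fin]

theorem inv_notMem_actv {x₀ : ∀ i, α i} (hT : IsTree G α) {m : ℕ} {g : G}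
    {w : ∀ i : Fin m, α i} (hw : w ∉ actv α g m) :
    aw x₀ g w ∉ actv α g⁻¹ m ∧ aw x₀ g⁻¹ (aw x₀ g w) = w := by
  have key : ∀ x : ∀ i, α i, g⁻¹ • glue (aw x₀ g w) x = glue w x := by
    intro x
    rw [inv_smul_eq_iff, smul_glue hT hw]
  constructor
  · rintro ⟨x, hx, i, hi, hne⟩
    have hxg : x = glue (aw x₀ g w) x := by
      funext j
      by_cases hj : j < m
      · rw [glue_lt _ _ hj]
        exact hx ⟨j, hj⟩
      · rw [glue_ge _ _ (not_lt.1 hj)]
    apply hne
    conv_lhs => rw [hxg]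
    rw [key x, glue_ge _ _ hi]
  · funext i
    have := congrFun (key x₀) i
    rw [glue_fin] at this
    exact this

/-- one inactive step -/
def Stp (S : Finset G) (x₀ : ∀ i, α i) {m : ℕ} (w w' : ∀ i : Fin m, α i) : Prop :=
  ∃ s ∈ S, w ∉ actv α s m ∧ aw x₀ s w = w'

theorem Stp.symm {S : Finset G} (hS : GenSet S) {x₀ : ∀ i, α i} (hT : IsTree G α) {m : ℕ}
    {w w' : ∀ i : Fin m, α i} (h : Stp S x₀ w w') : Stp S x₀ w' w := by
  obtain ⟨s, hs, h1, rfl⟩ := h
  obtain ⟨h2, h3⟩ := inv_notMem_actv (x₀ := x₀) hT h1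
  exact ⟨s⁻¹, hS.inv s hs, h2, h3⟩

/-- connected by inactive steps -/
def con {S : Finset G} (hS : GenSet S) (x₀ : ∀ i, α i) (hT : IsTree G α) (m : ℕ) :
    Setoid (∀ i : Fin m, α i) where
  r := Relation.ReflTransGen (Stp S x₀)
  iseqv :=
    { refl := fun _ => Relation.ReflTransGen.refl
      symm := fun {_ _} h => by
        induction h with
        | refl => exact Relation.ReflTransGen.refl
        | tail _ h2 ih => exact Relation.ReflTransGen.head (h2.symm hS hT) ih
      trans := fun h1 h2 => h1.trans h2 }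

/-- connected words are joined by an inactive element -/
theorem exists_of_con {S : Finset G} {x₀ : ∀ i, α i} (hT : IsTree G α) {m : ℕ}
    {w w' : ∀ i : Fin m, α i} (h : Relation.ReflTransGen (Stp S x₀) w w') :
    ∃ g : G, w ∉ actv α g m ∧ aw x₀ g w = w' := by
  induction h with
  | refl => exact ⟨1, one_notMem_actv _, aw_one _⟩
  | tail _ h2 ih =>
    obtain ⟨g, hg1, rfl⟩ := ih
    obtain ⟨s, _, hs1, rfl⟩ := h2
    obtain ⟨h3, h4⟩ := actv_mul (x₀ := x₀) hT hg1 hs1
    exact ⟨s * g, h3, h4⟩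

end

/-- the final estimate -/
theorem tre_real (N V A B D : ℕ) (hD1 : 1 ≤ D) (e : ℝ) (he : 0 < e) (hN : 0 < N)
    (hA : (A : ℝ) ^ D ≤ e * (N : ℝ) ^ (D - 1)) (hq : N * B ≤ A * V) (hV : V ≤ N) :
    (B : ℝ) ^ D ≤ e * (V : ℝ) ^ (D - 1) := by
  have hNR : (0 : ℝ) < N := by exact_mod_cast hN
  have hq' : (N : ℝ) * B ≤ A * V := by exact_mod_cast hq
  have h1 : ((N : ℝ) * B) ^ D ≤ (A * V : ℝ) ^ D :=
    pow_le_pow_left₀ (by positivity) hq' D
  rw [mul_pow, mul_pow] at h1
  have h2 : (N : ℝ) ^ D * (B : ℝ) ^ D ≤ (e * (N : ℝ) ^ (D - 1)) * (V : ℝ) ^ D :=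
    h1.trans (mul_le_mul_of_nonneg_right hA (by positivity))
  have h3 : (V : ℝ) ^ D = V * (V : ℝ) ^ (D - 1) := by
    rw [← pow_succ']
    congr 1
    omega
  have h4 : (N : ℝ) ^ D = N * (N : ℝ) ^ (D - 1) := by
    rw [← pow_succ']
    congr 1
    omega
  have h5 : (V : ℝ) ≤ N := by exact_mod_cast hV
  have h6 : (N : ℝ) ^ D * (B : ℝ) ^ D ≤ (N : ℝ) ^ D * (e * (V : ℝ) ^ (D - 1)) := by
    calc (N : ℝ) ^ D * (B : ℝ) ^ D ≤ (e * (N : ℝ) ^ (D - 1)) * (V : ℝ) ^ D := h2
      _ = (e * (N : ℝ) ^ (D - 1)) * (V * (V : ℝ) ^ (D - 1)) := by rw [h3]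
      _ ≤ (e * (N : ℝ) ^ (D - 1)) * (N * (V : ℝ) ^ (D - 1)) := by gcongr
      _ = (N : ℝ) ^ D * (e * (V : ℝ) ^ (D - 1)) := by rw [h4]; ring
  exact le_of_mul_le_mul_left h6 (by positivity)

theorem tre : TreStmt.{u, v} := by
  intro G _ α _ _ _ S D hS hT hLT hD1 hact e he
  have hSpos : (0 : ℝ) < S.card := by exact_mod_cast Finset.card_pos.2 ⟨1, hS.one⟩
  obtain ⟨m, hm⟩ := hact (e / (S.card : ℝ) ^ D) (by positivity)
  have x₀ : ∀ i, α i := fun i => Classical.choice inferInstance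
  -- active words
  set Ac : Finset (∀ i : Fin m, α i) := Finset.univ.filter fun w => ∃ s ∈ S, w ∈ actv α s m
    with hAc
  set N : ℕ := Fintype.card (∀ i : Fin m, α i) with hN
  have hNpos : 0 < N := Fintype.card_pos_iff.2 ⟨fun i => x₀ i⟩
  -- total activity
  obtain ⟨s₀, hs₀, hmax⟩ := Finset.exists_max_image S (fun s => (actv α s m).ncard) ⟨1, hS.one⟩
  have hAcle : Ac.card ≤ S.card * (actv α s₀ m).ncard := by
    have h1 : Ac ⊆ S.biUnion fun s => Finset.univ.filter fun w => w ∈ actv α s m := by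
      intro w hw
      obtain ⟨_, s, hs, hw⟩ := Finset.mem_filter.1 hw
      exact Finset.mem_biUnion.2 ⟨s, hs, Finset.mem_filter.2 ⟨Finset.mem_univ _, hw⟩⟩
    refine (Finset.card_le_card h1).trans (Finset.card_biUnion_le.trans ?_)
    have h2 : ∀ s ∈ S, (Finset.univ.filter fun w : (∀ i : Fin m, α i) => w ∈ actv α s m).card ≤
        (actv α s₀ m).ncard := by
      intro s hs
      have h3 : (Finset.univ.filter fun w : (∀ i : Fin m, α i) => w ∈ actv α s m).card =
          (actv α s m).ncard := by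
        rw [← Set.ncard_coe_finset]
        congr 1
        ext w
        simp
      rw [h3]
      exact hmax s hs
    refine (Finset.sum_le_sum h2).trans ?_
    simp
  have hAcD : (Ac.card : ℝ) ^ D ≤ e * (N : ℝ) ^ (D - 1) := by
    have h1 : (Ac.card : ℝ) ≤ S.card * (actv α s₀ m).ncard := by exact_mod_cast hAcle
    have h2 := hm s₀ hs₀
    rw [Nat.card_eq_fintype_card] at h2
    calc (Ac.card : ℝ) ^ D ≤ (S.card * (actv α s₀ m).ncard : ℝ) ^ D :=
          pow_le_pow_left₀ (Nat.cast_nonneg _) h1 D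
      _ = (S.card : ℝ) ^ D * ((actv α s₀ m).ncard : ℝ) ^ D := by rw [mul_pow]
      _ ≤ (S.card : ℝ) ^ D * (e / (S.card : ℝ) ^ D * (N : ℝ) ^ (D - 1)) := by gcongr
      _ = e * (N : ℝ) ^ (D - 1) := by field_simp
  -- a good class
  let st := con hS x₀ hT m
  have hcls : ∃ q : Quotient st, N * ((Ac.filter fun w => Quotient.mk st w = q).card) ≤
      Ac.card * (Finset.univ.filter fun w => Quotient.mk st w = q).card := by
    by_contra hcon
    push Not at hcon
    have : Nonempty (Quotient st) := ⟨Quotient.mk st fun i => x₀ i⟩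
    have h1 : ∑ q : Quotient st, Ac.card * (Finset.univ.filter fun w => Quotient.mk st w = q).card <
        ∑ q : Quotient st, N * ((Ac.filter fun w => Quotient.mk st w = q).card) :=
      Finset.sum_lt_sum_of_nonempty Finset.univ_nonempty fun q _ => hcon q
    rw [← Finset.mul_sum, ← Finset.mul_sum] at h1
    have h2 : ∑ q : Quotient st, (Finset.univ.filter fun w => Quotient.mk st w = q).card = N := by
      rw [← Finset.card_eq_sum_card_fiberwise (fun _ _ => Finset.mem_coe.2 (Finset.mem_univ _))]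
      rfl
    have h3 : ∑ q : Quotient st, (Ac.filter fun w => Quotient.mk st w = q).card = Ac.card := by
      rw [← Finset.card_eq_sum_card_fiberwise (fun _ _ => Finset.mem_coe.2 (Finset.mem_univ _))]
    rw [h2, h3, mul_comm] at h1
    exact lt_irrefl _ h1
  obtain ⟨q, hq⟩ := hcls
  obtain ⟨v₀, rfl⟩ := Quotient.exists_rep q
  set V : Finset (∀ i : Fin m, α i) := Finset.univ.filter fun w => Quotient.mk st w = Quotient.mk st v₀
    with hV
  set B : Finset (∀ i : Fin m, α i) := Ac.filter fun w => Quotient.mk st w = Quotient.mk st v₀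
    with hB
  have hmemV : ∀ w, w ∈ V ↔ Relation.ReflTransGen (Stp S x₀) v₀ w := by
    intro w
    rw [hV, Finset.mem_filter]
    constructor
    · rintro ⟨_, h⟩
      exact Quotient.exact h.symm
    · intro h
      exact ⟨Finset.mem_univ _, (Quotient.sound h).symm⟩
  have hVle : V.card ≤ N := Finset.card_le_univ _
  have hv₀V : v₀ ∈ V := (hmemV v₀).2 Relation.ReflTransGen.refl
  -- connecting elements
  have hh : ∀ w : (∀ i : Fin m, α i), ∃ g : G, w ∈ V → v₀ ∉ actv α g m ∧ aw x₀ g v₀ = w := by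
    intro w
    by_cases hw : w ∈ V
    · obtain ⟨g, hg⟩ := exists_of_con hT ((hmemV w).1 hw)
      exact ⟨g, fun _ => hg⟩
    · exact ⟨1, fun h => absurd h hw⟩
  choose h hh using hh
  have hg : ∀ w : (∀ i : Fin m, α i), ∃ g : G, aw x₀ g w = v₀ := by
    intro w
    obtain ⟨g, hg⟩ := hLT m (glue w x₀) (glue v₀ x₀)
    refine ⟨g, funext fun i => ?_⟩
    have := hg i i.2
    rw [glue_fin] at this
    exact this
  choose gu hgu using hg
  refine ⟨(Finset.univ ×ˢ Finset.univ).image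
    fun p : (∀ i : Fin m, α i) × (∀ i : Fin m, α i) => h p.1 * gu p.2, fun x => ?_⟩
  set uw : (∀ i : Fin m, α i) := fun i => x i with huw
  set x' : (∀ i, α i) := gu uw • x with hx'
  have hx'v : ∀ i : Fin m, x' i = v₀ i := by
    intro i
    rw [hx', aw_of (x₀ := x₀) hT (gu uw) uw x (fun _ => rfl) i, hgu]
  have hx'g : x' = glue v₀ x' := by
    funext j
    by_cases hj : j < m
    · rw [glue_lt _ _ hj]
      exact hx'v ⟨j, hj⟩
    · rw [glue_ge _ _ (not_lt.1 hj)]
  refine ⟨V.image fun w => glue w x', ?_, ?_, ?_⟩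
  · intro y hy
    obtain ⟨w, hw, rfl⟩ := Finset.mem_image.1 hy
    refine Finset.mem_smul.2 ⟨h w * gu uw, Finset.mem_image.2 ⟨(w, uw), by simp, rfl⟩, x,
      Finset.mem_singleton_self _, ?_⟩
    rw [mul_smul, ← hx']
    conv_lhs => rw [hx'g]
    rw [smul_glue (x₀ := x₀) hT (hh w hw).1, (hh w hw).2]
  · exact ⟨_, Finset.mem_image_of_mem _ hv₀V⟩
  · have hcard : (V.image fun w => glue w x').card = V.card :=
      Finset.card_image_of_injective _ fun a b hab => glue_inj hab
    have hbd : (bd S (V.image fun w => glue w x')).card ≤ B.card := by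
      refine (Finset.card_le_card (?_ : _ ⊆ B.image fun w => glue w x')).trans
        Finset.card_image_le
      intro y hy
      obtain ⟨h1, s, hs, h2⟩ := Finset.mem_filter.1 hy
      obtain ⟨w, hw, rfl⟩ := Finset.mem_image.1 h1
      refine Finset.mem_image_of_mem _ ?_
      rw [hB, Finset.mem_filter]
      refine ⟨?_, (Finset.mem_filter.1 hw).2⟩
      rw [hAc, Finset.mem_filter]
      refine ⟨Finset.mem_univ _, s, hs, ?_⟩
      by_contra hwa
      apply h2
      rw [smul_glue (x₀ := x₀) hT hwa]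
      refine Finset.mem_image_of_mem _ ?_
      rw [hmemV]
      exact ((hmemV w).1 hw).tail ⟨s, hs, hwa, rfl⟩
    rw [hcard]
    have h7 := tre_real N V.card Ac.card B.card D hD1 e he hNpos hAcD hq hVle
    refine le_trans ?_ h7
    exact pow_le_pow_left₀ (Nat.cast_nonneg _) (by exact_mod_cast hbd) D

end Pool.Agent.NGM.H19
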