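import Pool.Agent.NGM.StmtsE

/-! Rows TRG and TRH of squad NGM (MP_c602ad_al): realisation of limits. -/

set_option autoImplicit false

open scoped Classical Pointwise

universe u v

namespace Pool.Agent.NGM.H19

variable {G : Type u} [Group G] {X : Type v} [MulAction G X]

/-- finite pieces of `G ⧸ L` are realised in `X` -/
theorem realise {L : Subgroup G} (hL : LimSt G X L) (T : Finset G) (E : Finset (G ⧸ L)) :
    ∃ θ : G ⧸ L → X, (∀ a ∈ E, ∀ b ∈ E, θ a = θ b → a = b) ∧
      ∀ k ∈ T, ∀ a ∈ E, k • θ a = θ (k • a) := by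
  obtain ⟨x, hx⟩ := hL (((E ×ˢ E).image fun p => (p.1.out)⁻¹ * p.2.out) ∪
    ((T ×ˢ E).image fun p => ((p.1 • p.2).out)⁻¹ * (p.1 * p.2.out)))
  refine ⟨fun q => q.out • x, ?_, ?_⟩
  · intro a ha b hb hab
    have h1 : ((a.out)⁻¹ * b.out) • x = x := by
      rw [mul_smul, inv_smul_eq_iff]
      exact hab.symm
    have h2 := (hx _ (Finset.mem_union_left _ (Finset.mem_image.2
        ⟨(a, b), Finset.mem_product.2 ⟨ha, hb⟩, rfl⟩))).2 h1
    rw [← QuotientGroup.eq, QuotientGroup.out_eq', QuotientGroup.out_eq'] at h2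
    exact h2
  · intro k hk a ha
    have h1 : ((k • a).out)⁻¹ * (k * a.out) ∈ L := by
      rw [← QuotientGroup.eq, QuotientGroup.out_eq']
      conv_lhs => rw [← QuotientGroup.out_eq' a]
      rfl
    have h2 := (hx _ (Finset.mem_union_right _ (Finset.mem_image.2
        ⟨(k, a), Finset.mem_product.2 ⟨hk, ha⟩, rfl⟩))).1 h1
    rw [mul_smul, inv_smul_eq_iff, mul_smul] at h2
    exact h2

/-- pull back of a finite set through a partial isomorphism of graphs -/
theorem pull {Y : Type u} [MulAction G Y] (S : Finset G) (θ : Y → X) (E B : Finset Y)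
    (hBE : B ⊆ E) (hSB : ∀ s ∈ S, ∀ a ∈ B, s • a ∈ E)
    (hinj : ∀ a ∈ E, ∀ b ∈ E, θ a = θ b → a = b)
    (heq : ∀ s ∈ S, ∀ a ∈ E, s • θ a = θ (s • a)) (A₀ : Finset X) (hA₀ : A₀ ⊆ B.image θ) :
    ∃ A : Finset Y, A ⊆ B ∧ A.card = A₀.card ∧ (bd S A).card ≤ (bd S A₀).card := by
  refine ⟨B.filter fun a => θ a ∈ A₀, Finset.filter_subset _ _, ?_, ?_⟩
  · have himg : (B.filter fun a => θ a ∈ A₀).image θ = A₀ := by
      ext y
      constructor
      · intro hy
        obtain ⟨a, ha, rfl⟩ := Finset.mem_image.1 hy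
        exact (Finset.mem_filter.1 ha).2
      · intro hy
        obtain ⟨a, ha, rfl⟩ := Finset.mem_image.1 (hA₀ hy)
        exact Finset.mem_image_of_mem _ (Finset.mem_filter.2 ⟨ha, hy⟩)
    conv_rhs => rw [← himg]
    refine (Finset.card_image_of_injOn fun a ha b hb => ?_).symm
    exact hinj a (hBE (Finset.mem_filter.1 ha).1) b (hBE (Finset.mem_filter.1 hb).1)
  · have h1 : (bd S (B.filter fun a => θ a ∈ A₀)).image θ ⊆ bd S A₀ := by
      intro y hy
      obtain ⟨a, ha, rfl⟩ := Finset.mem_image.1 hy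
      obtain ⟨h1, s, hs, h2⟩ := Finset.mem_filter.1 ha
      obtain ⟨haB, haA⟩ := Finset.mem_filter.1 h1
      refine Finset.mem_filter.2 ⟨haA, s, hs, fun h3 => h2 ?_⟩
      rw [heq s hs a (hBE haB)] at h3
      obtain ⟨b, hb, hbe⟩ := Finset.mem_image.1 (hA₀ h3)
      have h4 : b = s • a := hinj b (hBE hb) _ (hSB s hs a haB) hbe
      rw [← h4]
      exact Finset.mem_filter.2 ⟨hb, by rw [hbe]; exact h3⟩
    have h2 : ((bd S (B.filter fun a => θ a ∈ A₀)).image θ).card =
        (bd S (B.filter fun a => θ a ∈ A₀)).card := by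
      refine Finset.card_image_of_injOn fun a ha b hb => ?_
      exact hinj a (hBE (Finset.mem_filter.1 (Finset.mem_filter.1 ha).1).1) b
        (hBE (Finset.mem_filter.1 (Finset.mem_filter.1 hb).1).1)
    rw [← h2]
    exact Finset.card_le_card h1

/-- (W1) passes to a set all of whose finite pieces are realised -/
theorem w1_of_realise {Y : Type u} [MulAction G Y] (hR : ∀ (T : Finset G) (E : Finset Y),
    ∃ θ : Y → X, (∀ a ∈ E, ∀ b ∈ E, θ a = θ b → a = b) ∧
      ∀ k ∈ T, ∀ a ∈ E, k • θ a = θ (k • a)) (S : Finset G) (D : ℕ) (hW : W1 S X D) :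
    W1 S Y D := by
  intro e he
  obtain ⟨d, hd, W, hW⟩ := hW e he
  refine ⟨d, hd, W, fun F hF hbd => ?_⟩
  obtain ⟨θ, hinj, heq⟩ := hR (S ∪ W) ((F ∪ W • F) ∪ S • (F ∪ W • F))
  set E : Finset Y := (F ∪ W • F) ∪ S • (F ∪ W • F) with hE
  have hFE : F ⊆ E := fun a ha => Finset.mem_union_left _ (Finset.mem_union_left _ ha)
  have hWE : W • F ⊆ E := fun a ha => Finset.mem_union_left _ (Finset.mem_union_right _ ha)
  have hcardF : (F.image θ).card = F.card :=
    Finset.card_image_of_injOn fun a ha b hb => hinj a (hFE ha) b (hFE hb)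
  have hbdF : (bd S (F.image θ)).card ≤ (bd S F).card := by
    refine (Finset.card_le_card (?_ : bd S (F.image θ) ⊆ (bd S F).image θ)).trans
      Finset.card_image_le
    intro y hy
    obtain ⟨h1, s, hs, h2⟩ := Finset.mem_filter.1 hy
    obtain ⟨a, ha, rfl⟩ := Finset.mem_image.1 h1
    refine Finset.mem_image_of_mem _ (Finset.mem_filter.2 ⟨ha, s, hs, fun h3 => h2 ?_⟩)
    rw [heq s (Finset.mem_union_left _ hs) a (hFE ha)]
    exact Finset.mem_image_of_mem _ h3
  obtain ⟨A₀, hA₀, hne, hIp⟩ := hW (F.image θ) (hF.image θ) (by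
    rw [hcardF]
    exact le_trans (by exact_mod_cast hbdF) hbd)
  have hsub : A₀ ⊆ (W • F).image θ := by
    intro y hy
    obtain ⟨w, hw, z, hz, rfl⟩ := Finset.mem_smul.1 (hA₀ hy)
    obtain ⟨a, ha, rfl⟩ := Finset.mem_image.1 hz
    rw [heq w (Finset.mem_union_right _ hw) a (hFE ha)]
    exact Finset.mem_image_of_mem _ (Finset.smul_mem_smul hw ha)
  obtain ⟨A, hA1, hA2, hA3⟩ := pull S θ E (W • F) hWE
    (fun s hs a ha => Finset.mem_union_right _
      (Finset.smul_mem_smul hs (Finset.mem_union_right _ ha))) hinj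
    (fun s hs a ha => heq s (Finset.mem_union_left _ hs) a ha) A₀ hsub
  refine ⟨A, hA1, ?_, ?_⟩
  · rw [← Finset.card_pos, hA2, Finset.card_pos]
    exact hne
  · rw [hA2]
    refine le_trans ?_ hIp
    exact pow_le_pow_left₀ (Nat.cast_nonneg _) (by exact_mod_cast hA3) D

/-- (W2) gives the isoperimetric condition on a set all of whose finite pieces are realised -/
theorem iso_of_realise {Y : Type u} [MulAction G Y] (hR : ∀ (T : Finset G) (E : Finset Y),
    ∃ θ : Y → X, (∀ a ∈ E, ∀ b ∈ E, θ a = θ b → a = b) ∧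
      ∀ k ∈ T, ∀ a ∈ E, k • θ a = θ (k • a)) (o : Y) (S : Finset G) (D : ℕ) (hW : W2 S X D) :
    Iso S Y D := by
  intro e he
  obtain ⟨W, hW⟩ := hW e he
  obtain ⟨θ, hinj, heq⟩ := hR (S ∪ W)
    (({o} ∪ W • ({o} : Finset Y)) ∪ S • ({o} ∪ W • ({o} : Finset Y)))
  set E : Finset Y := ({o} ∪ W • ({o} : Finset Y)) ∪ S • ({o} ∪ W • ({o} : Finset Y)) with hE
  have hoE : o ∈ E := Finset.mem_union_left _ (Finset.mem_union_left _ (Finset.mem_singleton_self _))
  have hWE : W • ({o} : Finset Y) ⊆ E :=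
    fun a ha => Finset.mem_union_left _ (Finset.mem_union_right _ ha)
  obtain ⟨A₀, hA₀, hne, hIp⟩ := hW (θ o)
  have hsub : A₀ ⊆ (W • ({o} : Finset Y)).image θ := by
    intro y hy
    obtain ⟨w, hw, z, hz, rfl⟩ := Finset.mem_smul.1 (hA₀ hy)
    rw [Finset.mem_singleton] at hz
    subst hz
    rw [heq w (Finset.mem_union_right _ hw) o hoE]
    exact Finset.mem_image_of_mem _ (Finset.smul_mem_smul hw (Finset.mem_singleton_self _))
  obtain ⟨A, hA1, hA2, hA3⟩ := pull S θ E (W • ({o} : Finset Y)) hWE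
    (fun s hs a ha => Finset.mem_union_right _
      (Finset.smul_mem_smul hs (Finset.mem_union_right _ ha))) hinj
    (fun s hs a ha => heq s (Finset.mem_union_left _ hs) a ha) A₀ hsub
  refine ⟨A, ?_, ?_⟩
  · rw [← Finset.card_pos, hA2, Finset.card_pos]
    exact hne
  · rw [hA2]
    refine le_trans ?_ hIp
    exact pow_le_pow_left₀ (Nat.cast_nonneg _) (by exact_mod_cast hA3) D

theorem trg : TrgStmt.{u, v} := by
  intro G _ X _ L S D hL hW
  exact w1_of_realise (realise hL) S D hW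

theorem trh : TrhStmt.{u, v} := by
  intro G _ X _ L S D hL hW
  exact iso_of_realise (realise hL) ((1 : G) : G ⧸ L) S D hW

end Pool.Agent.NGM.H19
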